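import Pool.Agent.H30.VM.TargetsD
import Pool.Agent.H90.VG.DB

/-!
# MP_70ba79_ag: row ROW of the board `vmp_modules`: combinations of the rows
-/

set_option autoImplicit false

namespace Pool.Agent.H68.VMP

open MvPolynomial SC Pool.Agent.H27.LV Pool.Agent.H17.VG Pool.Agent.H30.VM
open Pool.Agent.H17.CI (Tup IlT PQT TxT frmT upT RatT)
open Pool.Agent.H92.VG (lift_velocity)
open Pool.Agent.H90.VG (eval_dir D_eval)

/-- the derivative after multiplication by a power of the uniformizer -/
private lemma scaled {k K : Type} [Field k] [IsAlgClosed k] [CharZero k] [Field K]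
    [Algebra k K] [Algebra.EssFiniteType k K] (htr : Algebra.trdeg k K = 1)
    (D : Derivation k K K) (hD : D ≠ 0) (v : DV k K) (m : ℕ) {z : K}
    (hz : ge v (-(m : ℤ)) z) :
    ge v (-(m : ℤ) + ordD v D) (D z + (m : K) * (D v.unif / v.unif) * z) := by
  have hu0 := v.unif_ne_zero
  obtain ⟨t, ht⟩ : ∃ t : K, t = v.unif ^ m := ⟨_, rfl⟩
  have ht0 : t ≠ 0 := by rw [ht]; exact pow_ne_zero _ hu0
  have hto : v.ord t = m := by
    rw [ht, v.ord_pow, v.ord_unif, mul_one]
  have hdor := dor k K htr D hD v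
  have h1 : 0 ≤ v.ord (t * z) := by
    by_cases h0 : z = 0
    · rw [h0, mul_zero, v.ord_zero]
    · rw [v.ord_mul' ht0 h0, hto]
      have := hz.resolve_left h0
      omega
  have h2 := hdor.2.1.1 _ h1
  have h3 : ge v (-(m : ℤ)) t⁻¹ := Or.inr (by rw [v.ord_inv, hto])
  have h4 := h3.mul h2
  have hDt : D t = (m : K) * (D v.unif / v.unif) * t := by
    rw [ht, D.leibniz_pow]
    cases m with
    | zero => simp
    | succ m =>
      rw [Nat.add_sub_cancel, smul_eq_mul, nsmul_eq_mul, pow_succ]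
      field_simp
  have e : D z + (m : K) * (D v.unif / v.unif) * z = t⁻¹ * D (t * z) := by
    rw [D.leibniz, smul_eq_mul, smul_eq_mul, hDt]
    field_simp
  rw [e]
  exact h4

theorem pf_ROW (hLL : Pool.Agent.H17.VG.T_LL) (hEV : Pool.Agent.H17.VG.T_EV) : T_ROW := by
  classical
  intro R k K _ _ _ _ _ _ _ _ htr n s ι _ i₀ e F hF D hD x p hxp Q τ l q j hτ hsym v
  have hdor := dor k K htr D hD v
  have hge1 : ∀ z : K, z ≠ 0 → ge v (v.ord z - 1 + ordD v D) (D z) := by
    intro z hz
    exact (hdor.2.1.2 z hz).mono (by omega)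
  refine ⟨fun a => Or.inr (npole_le v x a), fun a => lift_velocity hLL htr D hD x τ hτ.1 v a,
    fun a => scaled htr D hD v _ (Or.inr (npole_le v x a)), fun i => ?_⟩
  obtain ⟨u, hu⟩ : ∃ u, u = eval x (upT K F i) := ⟨_, rfl⟩
  obtain ⟨c, hc⟩ : ∃ c, c = τ.1 v.unif / D v.unif := ⟨_, rfl⟩
  have h2 : ∑ a, eval x (pderiv a (upT K F i)) * D (x a) = D u := by
    rw [hu]
    exact (D_eval hEV D (F i) x).symm
  have h3 : τ.1 u = x q * eval x (upT K (Q j) i) - l i * u +
      ∑ a, eval x (pderiv a (upT K F i)) * opV τ x a := by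
    have h1 := hEV R K n τ (upT K F i) x
    rw [eval_dir, ← hu] at h1
    have h4 : opF τ (upT K F i) = X q * upT K (Q j) i - C (l i) * upT K F i :=
      eq_sub_of_add_eq (hsym.2 i)
    rw [h4, map_sub, map_mul, map_mul, eval_X, eval_C, ← hu] at h1
    exact h1
  have hom : (upT K F i).IsHomogeneous (e i + 1) := (hF i).map _
  have h5 : ∑ a, eval x (pderiv a (upT K F i)) * x a = ((e i + 1 : ℕ) : K) * u := by
    have h1 := congrArg (eval x) hom.sum_X_mul_pderiv
    rw [map_sum, nsmul_eq_mul, map_mul, map_natCast, ← hu] at h1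
    rw [← h1]
    refine Finset.sum_congr rfl fun a _ => ?_
    rw [map_mul, eval_X, mul_comm]
  rw [← hu, ← hc]
  refine ⟨?_, h5, ?_, fun hu0 => ⟨?_, ?_, fun hou => ?_⟩⟩
  · simp only [mul_sub, Finset.sum_sub_distrib]
    have h6 : ∑ a, eval x (pderiv a (upT K F i)) * (c * D (x a)) = c * D u := by
      rw [← h2, Finset.mul_sum]
      refine Finset.sum_congr rfl fun a _ => by ring
    rw [h6, h3]
    ring
  · simp only [mul_add, Finset.sum_add_distrib]
    have h6 : ∑ a, eval x (pderiv a (upT K F i)) *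
        ((poleOrder v x : K) * (D v.unif / v.unif) * x a) =
        (poleOrder v x : K) * (D v.unif / v.unif) *
          ∑ a, eval x (pderiv a (upT K F i)) * x a := by
      rw [Finset.mul_sum]
      refine Finset.sum_congr rfl fun a _ => by ring
    rw [h2, h6, h5]
  · rw [hc]
    have h7 := hLL R k K htr τ.1 hτ.1.1 D hD v u
    obtain ⟨b, hb⟩ := hτ.2 i
    rw [hb]
    have h8 := (ge_const v b).mul (ge_of_ord v (x := u))
    rw [zero_add] at h8
    exact h7.add h8
  · refine (hge1 u hu0).add ?_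
    have hD0 : ge v (ordD v D) (D v.unif) := Or.inr le_rfl
    have hinv : ge v (-1) v.unif⁻¹ := Or.inr (by rw [v.ord_inv, v.ord_unif])
    have h8 := ge_const v (poleOrder v x : k)
    have h9 := ge_const v ((e i + 1 : ℕ) : k)
    rw [map_natCast] at h8 h9
    have h10 := (h8.mul (hD0.mul hinv)).mul (h9.mul (ge_of_ord v (x := u)))
    rw [← div_eq_mul_inv] at h10
    exact h10.mono (by omega)
  · have h8 : ge v (-(((e i + 1) * poleOrder v x : ℕ) : ℤ)) u := by
      right
      rw [hou]
      push_cast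
      exact le_rfl
    have h9 := scaled htr D hD v _ h8
    have e1 : D u + (((e i + 1) * poleOrder v x : ℕ) : K) * (D v.unif / v.unif) * u =
        D u + (poleOrder v x : K) * (D v.unif / v.unif) * (((e i + 1 : ℕ) : K) * u) := by
      push_cast
      ring
    rw [e1] at h9
    rw [hou]
    refine h9.mono ?_
    push_cast
    exact le_rfl

end Pool.Agent.H68.VMP
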